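import Pool.Agent.Helper16.KUnb.Defs
import Pool.Agent.Helper16.Knotoid.Switch
import Pool.Agent.Helper16.Knotoid.R1

set_option autoImplicit false

/-!
# Bridges of the state graph
-/

namespace Pool.Agent.Helper16.Knotoid

open Module

namespace GaussDiagram

variable {n : ℕ} (D : GaussDiagram n)

/-- the jumps of a function on the components of a state are in the kernel of its matrix -/
theorem ker_of_compat (s : Fin n → Bool) {φ : Fin (2 * n + 1) → ZMod 2}
    (hφ : φ ∈ compat (D.Join s)) :
    (fun c => φ (D.overPass c).castSucc + φ (D.overPass c).succ) ∈ D.Kz s := by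
  rw [compat_join, arcCond_eq_map D.pass_inj] at hφ
  obtain ⟨⟨a, x⟩, ⟨-, hx⟩, rfl⟩ := hφ
  have h : (fun c => arcParam D.overPass D.underPass (a, x) (D.overPass c).castSucc +
      arcParam D.overPass D.underPass (a, x) (D.overPass c).succ) = x := by
    funext c
    rw [arcParam_apply, arcParam_apply]
    simp only [Fin.val_castSucc, Fin.val_succ]
    rw [arcFun_succ_P D.pass_inj, ← add_assoc, CharTwo.add_self_eq_zero, zero_add]
  rw [h]
  exact hx

theorem comps_swc_ge (s : Fin n → Bool) (c : Fin n) :
    D.comps s ≤ D.comps (swc s c) + 1 ∧ D.comps (swc s c) ≤ D.comps s + 1 := by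
  have c1 : D.comps s = 1 + finrank (ZMod 2) (D.Kz s) := D.comps_eq s
  have c2 : D.comps (swc s c) = 1 + finrank (ZMod 2) (D.Kz (swc s c)) := D.comps_eq _
  have k1 := D.finrank_K s c
  have k2 := D.finrank_K (swc s c) c
  rw [K0_swc] at k2
  rcases k1 with ⟨k1, -⟩ | ⟨k1, -⟩ <;> rcases k2 with ⟨k2, -⟩ | ⟨k2, -⟩ <;> omega

/-- switching at a crossing of two different components -/
theorem comps_swc_of_ne (s : Fin n → Bool) (c : Fin n) {φ : Fin (2 * n + 1) → ZMod 2}
    (hφ : φ ∈ compat (D.Join s)) (hc : φ (D.overPass c).castSucc ≠ φ (D.overPass c).succ) :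
    D.comps (swc s c) + 1 = D.comps s := by
  have c1 : D.comps s = 1 + finrank (ZMod 2) (D.Kz s) := D.comps_eq s
  have c2 : D.comps (swc s c) = 1 + finrank (ZMod 2) (D.Kz (swc s c)) := D.comps_eq _
  have hx := D.ker_of_compat s hφ
  set x : Fin n → ZMod 2 := fun c => φ (D.overPass c).castSucc + φ (D.overPass c).succ with hxd
  have hxc : x c = 1 := by
    have key : ∀ a b : ZMod 2, a ≠ b → a + b = 1 := by decide
    exact key _ _ hc
  have k1 := D.finrank_K s c
  have k2 := D.finrank_K (swc s c) c
  rw [K0_swc] at k2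
  rcases k1 with ⟨-, k1⟩ | ⟨k1, -⟩
  · have := k1 x hx
    rw [hxc] at this
    exact absurd this (by decide)
  rcases k2 with ⟨k2, -⟩ | ⟨-, y, hy, hyc⟩
  · omega
  exfalso
  -- duality
  have hx' : (D.gmat s).mulVec x = 0 := hx
  have h1 : ∀ e, (D.gmat s).mulVec y e = if e = c then 1 else 0 := by
    intro e
    rw [mem_ker_gmat] at hy
    have h2 := hy e
    rw [gmat_mulVec]
    by_cases he : e = c
    · subst he
      unfold swc at h2
      rw [Function.update_self, hyc] at h2
      rw [if_pos rfl, hyc]
      generalize Lv D.lam y e = t at h2 ⊢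
      revert h2 t
      cases s e <;> cases D.sign e <;> simp <;> decide
    · unfold swc at h2
      rw [Function.update_of_ne he] at h2
      rw [if_neg he]
      exact h2
  have h2 : dotProduct x ((D.gmat s).mulVec y) = 0 := by
    rw [Matrix.dotProduct_mulVec]
    have : Matrix.vecMul x (D.gmat s) = (D.gmat s).mulVec x := by
      funext e
      unfold Matrix.vecMul Matrix.mulVec dotProduct
      refine Finset.sum_congr rfl fun f _ => ?_
      beta_reduce
      rw [D.gmat_symm s f e, mul_comm]
    rw [this, hx', zero_dotProduct]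
  have h4 : dotProduct x ((D.gmat s).mulVec y) = x c := by
    unfold dotProduct
    simp only [h1]
    simp
  rw [h4, hxc] at h2
  exact absurd h2 (by decide)

theorem change_insert (s : Fin n → Bool) {Y : Finset (Fin n)} {c : Fin n} (hc : c ∉ Y) :
    change s (insert c Y) = swc (change s Y) c := by
  funext d
  unfold change swc
  by_cases hd : d = c
  · subst hd
    rw [Function.update_self, if_pos (Finset.mem_insert_self d Y)]
    beta_reduce
    rw [if_neg hc]
  · rw [Function.update_of_ne hd]
    simp [hd]

theorem change_empty (s : Fin n → Bool) : change s ∅ = s := by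
  funext d
  simp [change]

/-- the four edges at a crossing with equal ends -/
theorem four_eq {s : Fin n → Bool} {φ : Fin (2 * n + 1) → ZMod 2} (hφ : φ ∈ compat (D.Join s))
    {c : Fin n} (hc : φ (D.overPass c).castSucc = φ (D.overPass c).succ) :
    φ (D.underPass c).castSucc = φ (D.overPass c).succ ∧
      φ (D.underPass c).succ = φ (D.overPass c).succ := by
  rw [mem_compat] at hφ
  by_cases h : s c = D.sign c
  · have h1 := hφ _ _ (Join.oriented₁ c h)
    have h2 := hφ _ _ (Join.oriented₂ c h)
    exact ⟨h2, by rw [← h1, hc]⟩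
  · have h1 := hφ _ _ (Join.unoriented₁ c h)
    have h2 := hφ _ _ (Join.unoriented₂ c h)
    exact ⟨by rw [← h1, hc], h2.symm⟩

theorem compat_change {s : Fin n → Bool} {φ : Fin (2 * n + 1) → ZMod 2}
    (hφ : φ ∈ compat (D.Join s)) {Y : Finset (Fin n)}
    (hY : ∀ d ∈ Y, φ (D.overPass d).castSucc = φ (D.overPass d).succ) :
    φ ∈ compat (D.Join (change s Y)) := by
  have hφ' := hφ
  rw [mem_compat] at hφ' ⊢
  intro a b hab
  have key : ∀ c, change s Y c ≠ s c → c ∈ Y := by
    intro c hc
    by_contra h
    exact hc (if_neg h)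
  cases hab with
  | oriented₁ c h =>
    by_cases hs : change s Y c = s c
    · exact hφ' _ _ (Join.oriented₁ c (by rw [← hs]; exact h))
    · have h1 := hY c (key c hs)
      rw [h1, (D.four_eq hφ h1).2]
  | oriented₂ c h =>
    by_cases hs : change s Y c = s c
    · exact hφ' _ _ (Join.oriented₂ c (by rw [← hs]; exact h))
    · have h1 := hY c (key c hs)
      rw [(D.four_eq hφ h1).1]
  | unoriented₁ c h =>
    by_cases hs : change s Y c = s c
    · exact hφ' _ _ (Join.unoriented₁ c (by rw [← hs]; exact h))
    · have h1 := hY c (key c hs)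
      rw [h1, (D.four_eq hφ h1).1]
  | unoriented₂ c h =>
    by_cases hs : change s Y c = s c
    · exact hφ' _ _ (Join.unoriented₂ c (by rw [← hs]; exact h))
    · have h1 := hY c (key c hs)
      rw [(D.four_eq hφ h1).2]

/-- a crossing which is not on a cycle of `Z` separates -/
def Sep (s : Fin n → Bool) (Z : Finset (Fin n)) (c : Fin n) : Prop :=
  ∃ φ ∈ compat (D.Join s),
    (∀ d ∈ Z, d ≠ c → φ (D.overPass d).castSucc = φ (D.overPass d).succ) ∧
    φ (D.overPass c).castSucc ≠ φ (D.overPass c).succ

theorem Sep.mono {s : Fin n → Bool} {Y Z : Finset (Fin n)} {c : Fin n} (h : D.Sep s Z c)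
    (hY : Y ⊆ Z) : D.Sep s Y c := by
  obtain ⟨φ, hφ, h1, h2⟩ := h
  exact ⟨φ, hφ, fun d hd => h1 d (hY hd), h2⟩

theorem Sep.comps {s : Fin n → Bool} {Y : Finset (Fin n)} {c : Fin n} (h : D.Sep s Y c)
    (hc : c ∉ Y) : D.comps (change s (insert c Y)) + 1 = D.comps (change s Y) := by
  obtain ⟨φ, hφ, h1, h2⟩ := h
  rw [change_insert s hc]
  exact D.comps_swc_of_ne _ c (D.compat_change hφ fun d hd =>
    h1 d hd fun h => hc (h ▸ hd)) h2

open Classical in
theorem even_iff {s : Fin n → Bool} {C : Finset (Fin n)} : D.IsEven s C ↔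
    ∀ q : Quot (D.Join s), ∑ c ∈ C, ((if D.end₁ s c = q then (1 : ZMod 2) else 0) +
      if D.end₂ s c = q then 1 else 0) = 0 := by
  unfold IsEven
  refine forall_congr' fun q => ?_
  rw [Finset.sum_add_distrib, ← Finset.sum_filter, ← Finset.sum_filter, Finset.sum_const,
    Finset.sum_const, nsmul_eq_mul, nsmul_eq_mul, mul_one, mul_one, ← Nat.cast_add,
    ZMod.natCast_eq_zero_iff_even]

theorem exists_sep {s : Fin n → Bool} {Z : Finset (Fin n)} {c : Fin n} (hc : c ∈ Z)
    (h : ∀ C ⊆ Z, D.IsEven s C → c ∉ C) : D.Sep s Z c := by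
  classical
  set r : Fin (2 * n + 1) → Fin (2 * n + 1) → Prop := fun a b => D.Join s a b ∨
    ∃ d ∈ Z, d ≠ c ∧ a = (D.overPass d).castSucc ∧ b = (D.overPass d).succ with hr
  by_cases hq : (Quot.mk r (D.overPass c).castSucc) = Quot.mk r (D.overPass c).succ
  · exfalso
    have hgen := Quot.eqvGen_exact hq
    have key : ∀ a b, Relation.EqvGen r a b → ∃ x : Fin n → ZMod 2,
        (∀ d, x d ≠ 0 → d ∈ Z ∧ d ≠ c) ∧ ∀ q : Quot (D.Join s),
          ∑ d, x d * ((if D.end₁ s d = q then (1 : ZMod 2) else 0) +
            if D.end₂ s d = q then 1 else 0) =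
          (if Quot.mk _ a = q then 1 else 0) + if Quot.mk _ b = q then 1 else 0 := by
      intro a b hab
      induction hab with
      | rel a b hab =>
        rcases hab with hab | ⟨d, hd, hdc, rfl, rfl⟩
        · refine ⟨0, fun d hd => absurd rfl hd, fun q => ?_⟩
          have : (Quot.mk (D.Join s) a) = Quot.mk _ b := Quot.sound hab
          rw [this, CharTwo.add_self_eq_zero]
          simp
        · refine ⟨Pi.single d 1, fun e he => ?_, fun q => ?_⟩
          · have : e = d := by
              by_contra hne
              rw [Pi.single_eq_of_ne hne] at he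
              exact he rfl
            subst this
            exact ⟨hd, hdc⟩
          · rw [Finset.sum_eq_single d]
            · rw [Pi.single_eq_same, one_mul]
              rfl
            · intro e _ he
              rw [Pi.single_eq_of_ne he, zero_mul]
            · simp
      | refl a =>
        refine ⟨0, fun d hd => absurd rfl hd, fun q => ?_⟩
        rw [CharTwo.add_self_eq_zero]
        simp
      | symm a b _ ih =>
        obtain ⟨x, hx1, hx2⟩ := ih
        exact ⟨x, hx1, fun q => by rw [hx2 q, add_comm]⟩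
      | trans a b e _ _ ih1 ih2 =>
        obtain ⟨x, hx1, hx2⟩ := ih1
        obtain ⟨y, hy1, hy2⟩ := ih2
        refine ⟨x + y, fun d hd => ?_, fun q => ?_⟩
        · by_cases hxd : x d = 0
          · refine hy1 d fun hyd => hd ?_
            rw [Pi.add_apply, hxd, hyd, add_zero]
          · exact hx1 d hxd
        · have : ∀ p q r : ZMod 2, (p + q) + (q + r) = p + r := by decide
          rw [← this _ (if Quot.mk _ b = q then 1 else 0) _, ← hx2 q, ← hy2 q,
            ← Finset.sum_add_distrib]
          refine Finset.sum_congr rfl fun d _ => ?_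
          rw [Pi.add_apply]
          ring
    obtain ⟨x, hx1, hx2⟩ := key _ _ hgen
    set P : Finset (Fin n) := Finset.univ.filter fun d => x d ≠ 0 with hP
    have hcP : c ∉ P := by
      intro hcP
      exact (hx1 c (Finset.mem_filter.1 hcP).2).2 rfl
    refine h (insert c P) ?_ ?_ (Finset.mem_insert_self c P)
    · intro d hd
      rcases Finset.mem_insert.1 hd with rfl | hd
      · exact hc
      · exact (hx1 d (Finset.mem_filter.1 hd).2).1
    · rw [even_iff]
      intro q
      rw [Finset.sum_insert hcP]
      have h1 : ∑ d ∈ P, ((if D.end₁ s d = q then (1 : ZMod 2) else 0) +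
          if D.end₂ s d = q then 1 else 0) =
          ∑ d, x d * ((if D.end₁ s d = q then (1 : ZMod 2) else 0) +
            if D.end₂ s d = q then 1 else 0) := by
        rw [hP, Finset.sum_filter]
        refine Finset.sum_congr rfl fun d _ => ?_
        by_cases hd : x d = 0
        · rw [if_neg (by simpa using hd), hd, zero_mul]
        · rw [if_pos hd, zmod2_ne_zero.1 hd, one_mul]
      rw [h1, hx2 q]
      unfold end₁ end₂
      exact CharTwo.add_self_eq_zero _
  · refine ⟨fun a => if Quot.mk r a = Quot.mk r (D.overPass c).castSucc then 1 else 0, ?_, ?_, ?_⟩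
    · rw [mem_compat]
      intro a b hab
      have : Quot.mk r a = Quot.mk r b := Quot.sound (Or.inl hab)
      rw [this]
    · intro d hd hdc
      have : Quot.mk r (D.overPass d).castSucc = Quot.mk r (D.overPass d).succ :=
        Quot.sound (Or.inr ⟨d, hd, hdc, rfl, rfl⟩)
      beta_reduce
      rw [this]
    · beta_reduce
      rw [if_pos rfl, if_neg (Ne.symm hq)]
      decide

/-- all crossings are isolated if there are `n + 1` components -/
theorem r1_of_comps {s : Fin n → Bool} (h : D.comps s = n + 1) : R1Trivial D.word := by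
  have h1 := D.comps_add_rank s
  have h2 : (D.gmat s).rank = 0 := by omega
  have h3 : D.gmat s = 0 := by
    have h4 : LinearMap.range (D.gmat s).mulVecLin = ⊥ := by
      apply Submodule.finrank_eq_zero.1
      exact h2
    have h5 : (D.gmat s).mulVecLin = 0 := LinearMap.range_eq_bot.1 h4
    ext i j
    have h6 := congrFun (LinearMap.congr_fun h5 (Pi.single j 1)) i
    rw [Matrix.mulVecLin_apply, Matrix.mulVec_single_one] at h6
    exact h6
  exact D.r1_of_gmat s fun e f _ => by rw [h3]; rfl

end GaussDiagram

end Pool.Agent.Helper16.Knotoid
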