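import Pool.Agent.Helper16.KUnb.Defs

set_option autoImplicit false

/-!
# Unbalanced states of knotoid diagrams: more definitions
-/

namespace Pool.Agent.Helper16.Knotoid

namespace GaussDiagram

variable {n : ℕ} (D : GaussDiagram n)

/-- The state `s` is strictly unbalanced: the excess of every nonempty union `Z` of cycles of its
state graph is less than `2 |A(Z) - B(Z)| - 2`. -/
def StrictlyUnbalanced (s : Fin n → Bool) : Prop :=
  ∀ Z : Finset (Fin n), D.IsCycleUnion s Z →
    D.excess s Z + 2 < 2 * |(num s true Z : ℤ) - num s false Z|

open Classical in
/-- The number of even subgraphs contained in `Z`; it is `2 ^ b` if `b` is the first Betti number of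
the subgraph of the state graph of `s` with the edges `Z`. -/
noncomputable def evenCount (s : Fin n → Bool) (Z : Finset (Fin n)) : ℕ :=
  (Z.powerset.filter fun C => D.IsEven s C).card

/-- The map `r` divides the crossings into classes such that every cycle of the state graph of `s`
which goes through a crossing goes through its whole class (for instance: the twist regions of the
diagram, if the smoothings of `s` cut each of them across). -/
def Series (s : Fin n → Bool) {m : ℕ} (r : Fin n → Fin m) : Prop :=
  ∀ C : Finset (Fin n), D.IsEven s C → ∀ c d : Fin n, r c = r d → c ∈ C → d ∈ C

end GaussDiagram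

end Pool.Agent.Helper16.Knotoid
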