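import Pool.Agent.Helper16.KUnb.Expand
import Pool.Agent.Helper16.KUnb.Extra

set_option autoImplicit false

/-!
# Unbalanced states of knotoid diagrams: the theorem
-/

namespace Pool.Agent.Helper16.Knotoid

open LaurentPolynomial

namespace GaussDiagram

variable {n : ℕ} {D : GaussDiagram n}

theorem card_num (s : Fin n → Bool) (Z : Finset (Fin n)) :
    num s true Z + num s false Z = Z.card := by
  have h := Finset.card_filter_add_card_filter_not (s := Z) (fun c => s c = true)
  have h1 : (Z.filter fun c => ¬ (s c = true)) = Z.filter fun c => s c = false := by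
    ext c
    simp
  rw [h1] at h
  exact h

/-- an unbalanced state of a diagram with `f = 1` -/
theorem unbalanced_eq (hf : D.normalizedBracket = 1) {s : Fin n → Bool} (h : D.Unbalanced s) :
    3 * |((num s true Finset.univ : ℤ) - num s false Finset.univ) - D.writhe| =
      2 * ((n : ℤ) + 1 - D.comps s) := by
  obtain ⟨ε, hε⟩ := D.bracket_of_f hf
  have hle := D.comps_le s
  have h1 := D.KK_cases h (β := n + 1 - D.comps s) (by omega) hε
  rw [sg_eq] at h1
  have h2 : ((n + 1 - D.comps s : ℕ) : ℤ) = (n : ℤ) + 1 - D.comps s := by omega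
  rw [h2] at h1
  have h3 := abs_cases (((num s true Finset.univ : ℤ) - num s false Finset.univ) - D.writhe)
  rcases h1 with ⟨h1, -⟩ | ⟨h1, -⟩ <;> omega

theorem sum_sign (s : Fin n → Bool) : (∑ c, if s c then (1 : ℤ) else -1) =
    (num s true Finset.univ : ℤ) - num s false Finset.univ := by
  unfold num
  rw [Finset.sum_ite, Finset.sum_const, Finset.sum_const]
  have h : (Finset.univ.filter fun c => ¬ (s c = true)) =
      Finset.univ.filter fun c => s c = false := by
    ext c
    simp
  rw [h]
  simp
  ring

/-- an unbalanced Seifert state -/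
theorem unb_seifert (hf : D.normalizedBracket = 1) (h : D.Unbalanced D.sign) :
    R1Trivial D.word := by
  have h1 := unbalanced_eq hf h
  have h2 : D.writhe = (num D.sign true Finset.univ : ℤ) - num D.sign false Finset.univ :=
    sum_sign D.sign
  rw [← h2, sub_self, abs_zero] at h1
  exact D.r1_of_comps (s := D.sign) (by omega)

/-- strictly unbalanced states are unbalanced -/
theorem StrictlyUnbalanced.unbalanced {s : Fin n → Bool} (h : D.StrictlyUnbalanced s) :
    D.Unbalanced s := fun Z hZ => by
  have := h Z hZ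
  omega

/-- a strictly unbalanced state -/
theorem unb_strict (hf : D.normalizedBracket = 1) {s : Fin n → Bool}
    (h : D.StrictlyUnbalanced s) : R1Trivial D.word := by
  obtain ⟨ε, hε⟩ := D.bracket_of_f hf
  have hle := D.comps_le s
  have h1 := D.KK_cases h.unbalanced (β := n + 1 - D.comps s) (by omega) hε
  have h2 : (D.KK s).coeff (-4) = 0 := by
    rw [D.KK_coeff_zero (j := -4), if_neg (by norm_num)]
    intro Z hZ
    have h3 := h Z hZ
    rw [show -4 + 4 * ((num s true Z : ℤ) - num s false Z) =
      4 * (((num s true Z : ℤ) - num s false Z) - 1) by ring, abs_mul]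
    norm_num
    have h4 := abs_cases ((num s true Z : ℤ) - num s false Z)
    have h5 := abs_cases (((num s true Z : ℤ) - num s false Z) - 1)
    omega
  have h3 : (D.KK s).coeff 4 = 0 := by
    rw [D.KK_coeff_zero (j := 4), if_neg (by norm_num)]
    intro Z hZ
    have h3 := h Z hZ
    rw [show 4 + 4 * ((num s true Z : ℤ) - num s false Z) =
      4 * (((num s true Z : ℤ) - num s false Z) + 1) by ring, abs_mul]
    norm_num
    have h4 := abs_cases ((num s true Z : ℤ) - num s false Z)
    have h5 := abs_cases (((num s true Z : ℤ) - num s false Z) + 1)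
    omega
  rw [h2, h3] at h1
  exact D.r1_of_comps (s := s) (by omega)

/-- the excess of a union of series classes -/
theorem excess_le_classes {s : Fin n → Bool} {m : ℕ} {r : Fin n → Fin m} (hr : D.Series s r)
    (Z : Finset (Fin n)) : D.exn s Z ≤ 2 * (Z.image r).card := by
  classical
  rcases Z.eq_empty_or_nonempty with rfl | ⟨z, hz⟩
  · rw [exn_empty]
    exact Nat.zero_le _
  haveI : Nonempty (Fin n) := ⟨z⟩
  have hex : ∀ i : Fin m, i ∈ Z.image r → ∃ c ∈ Z, r c = i := fun i hi => Finset.mem_image.1 hi
  choose! t ht ht' using hex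
  set T := (Z.image r).image t with hT
  have hTZ : T ⊆ Z := by
    intro x hx
    obtain ⟨i, hi, rfl⟩ := Finset.mem_image.1 hx
    exact ht i hi
  have hTc : T.card = (Z.image r).card := by
    rw [hT]
    apply Finset.card_image_of_injOn
    intro i hi j hj hij
    have h1 := ht' i hi
    have h2 := ht' j hj
    rw [← h1, ← h2, hij]
  have hind : ∀ X ⊆ Z \ T, D.exn s X = 0 := by
    intro X
    induction X using Finset.induction_on with
    | empty => exact fun _ => D.exn_empty s
    | insert c X hc ih =>
      intro hX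
      rw [D.exn_insert_sep hc, ih ((Finset.subset_insert c X).trans hX)]
      refine Sep.mono D (Z := insert c X) ?_ (Finset.subset_insert c X)
      apply D.exists_sep (Finset.mem_insert_self c X)
      intro C hC hE hcC
      have h1 : c ∈ Z := (Finset.mem_sdiff.1 (hX (Finset.mem_insert_self c X))).1
      have h2 : r c ∈ Z.image r := Finset.mem_image_of_mem r h1
      have h3 := hr C hE c (t (r c)) (ht' _ h2).symm hcC
      exact (Finset.mem_sdiff.1 (hX (hC h3))).2 (Finset.mem_image_of_mem t h2)
  have hadd : ∀ X : Finset (Fin n), D.exn s (X ∪ (Z \ T)) ≤ D.exn s (Z \ T) + 2 * X.card := by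
    intro X
    induction X using Finset.induction_on with
    | empty => simp
    | insert c X hc ih =>
      rw [Finset.insert_union, Finset.card_insert_of_notMem hc]
      by_cases h : c ∈ X ∪ (Z \ T)
      · rw [Finset.insert_eq_of_mem h]
        omega
      · have := (D.exn_insert s h).2
        omega
  have h1 := hadd T
  rw [Finset.union_sdiff_of_subset hTZ, hind (Z \ T) subset_rfl, hTc] at h1
  omega

theorem even_symmDiff {s : Fin n → Bool} {C C' : Finset (Fin n)} (h : D.IsEven s C)
    (h' : D.IsEven s C') : D.IsEven s (symmDiff C C') := by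
  classical
  rw [even_iff] at h h' ⊢
  intro q
  have h1 := h q
  have h2 := h' q
  set f : Fin n → ZMod 2 := fun c => (if D.end₁ s c = q then (1 : ZMod 2) else 0) +
    if D.end₂ s c = q then 1 else 0 with hf
  have h3 : symmDiff C C' = (C \ C') ∪ (C' \ C) := rfl
  have h4 : Disjoint (C \ C') (C' \ C) := by
    rw [Finset.disjoint_left]
    intro x hx hx'
    exact (Finset.mem_sdiff.1 hx).2 (Finset.mem_sdiff.1 hx').1
  have h5 := Finset.sum_inter_add_sum_sdiff C C' f
  have h6 := Finset.sum_inter_add_sum_sdiff C' C f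
  rw [Finset.inter_comm] at h6
  show ∑ c ∈ symmDiff C C', f c = 0
  rw [h3, Finset.sum_union h4]
  have h7 : ∑ c ∈ C, f c = 0 := h1
  have h8 : ∑ c ∈ C', f c = 0 := h2
  rw [h7] at h5
  rw [h8] at h6
  have key : ∀ a b c : ZMod 2, c + a = 0 → c + b = 0 → a + b = 0 := by decide
  exact key _ _ _ h5 h6

theorem evenCount_mono {s : Fin n → Bool} {Y Z : Finset (Fin n)} (h : Y ⊆ Z) :
    D.evenCount s Y ≤ D.evenCount s Z := by
  classical
  unfold evenCount
  exact Finset.card_le_card (Finset.filter_subset_filter _ (Finset.powerset_mono.2 h))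

theorem evenCount_insert {s : Fin n → Bool} {Y : Finset (Fin n)} {c : Fin n} (hc : c ∉ Y)
    {C₀ : Finset (Fin n)} (h0 : C₀ ⊆ insert c Y) (h1 : D.IsEven s C₀) (h2 : c ∈ C₀) :
    2 * D.evenCount s Y ≤ D.evenCount s (insert c Y) := by
  classical
  unfold evenCount
  set E := Y.powerset.filter fun C => D.IsEven s C with hE
  have hinj : Set.InjOn (fun C => symmDiff C C₀) (E : Set (Finset (Fin n))) := by
    intro C _ C' _ h
    exact symmDiff_left_injective C₀ h
  have hd : Disjoint E (E.image fun C => symmDiff C C₀) := by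
    rw [Finset.disjoint_left]
    intro C hC hC'
    obtain ⟨C', hC'', rfl⟩ := Finset.mem_image.1 hC'
    have h3 : c ∉ symmDiff C' C₀ := fun h =>
      hc (Finset.mem_powerset.1 (Finset.mem_filter.1 hC).1 h)
    apply h3
    rw [Finset.mem_symmDiff]
    exact Or.inr ⟨h2, fun h => hc (Finset.mem_powerset.1 (Finset.mem_filter.1 hC'').1 h)⟩
  have h3 : (E ∪ E.image fun C => symmDiff C C₀).card = 2 * E.card := by
    rw [Finset.card_union_of_disjoint hd, Finset.card_image_of_injOn hinj]
    ring
  rw [← h3]
  apply Finset.card_le_card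
  intro C hC
  rw [Finset.mem_filter, Finset.mem_powerset]
  rcases Finset.mem_union.1 hC with hC | hC
  · obtain ⟨h4, h5⟩ := Finset.mem_filter.1 hC
    exact ⟨(Finset.mem_powerset.1 h4).trans (Finset.subset_insert c Y), h5⟩
  · obtain ⟨C', hC', rfl⟩ := Finset.mem_image.1 hC
    obtain ⟨h4, h5⟩ := Finset.mem_filter.1 hC'
    refine ⟨?_, even_symmDiff h5 h1⟩
    intro x hx
    rcases Finset.mem_symmDiff.1 hx with ⟨hx, -⟩ | ⟨hx, -⟩
    · exact Finset.mem_insert_of_mem (Finset.mem_powerset.1 h4 hx)
    · exact h0 hx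

theorem two_pow_exn_le (s : Fin n → Bool) (Z : Finset (Fin n)) :
    2 ^ D.exn s Z ≤ D.evenCount s Z ^ 2 := by
  classical
  induction Z using Finset.induction_on with
  | empty =>
    have h : D.evenCount s ∅ = 1 := by
      unfold evenCount
      rw [Finset.card_eq_one]
      refine ⟨∅, ?_⟩
      ext C
      rw [Finset.mem_filter, Finset.powerset_empty, Finset.mem_singleton]
      refine ⟨fun h => h.1, fun h => ⟨h, ?_⟩⟩
      subst h
      intro q
      simp
    rw [exn_empty, h]
    norm_num
  | insert c Y hc ih =>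
    by_cases h : ∃ C ⊆ insert c Y, D.IsEven s C ∧ c ∈ C
    · obtain ⟨C, h0, h1, h2⟩ := h
      have h3 := evenCount_insert hc h0 h1 h2
      have h4 := (D.exn_insert s hc).2
      calc 2 ^ D.exn s (insert c Y) ≤ 2 ^ (D.exn s Y + 2) := Nat.pow_le_pow_right (by norm_num) h4
        _ = 4 * 2 ^ D.exn s Y := by rw [pow_add]; ring
        _ ≤ 4 * D.evenCount s Y ^ 2 := Nat.mul_le_mul_left 4 ih
        _ = (2 * D.evenCount s Y) ^ 2 := by ring
        _ ≤ _ := Nat.pow_le_pow_left h3 2
    · push Not at h
      have h1 : D.Sep s Y c :=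
        Sep.mono D (D.exists_sep (Finset.mem_insert_self c Y) h) (Finset.subset_insert c Y)
      rw [D.exn_insert_sep hc h1]
      exact ih.trans (Nat.pow_le_pow_left (evenCount_mono (Finset.subset_insert c Y)) 2)

/-- states whose unions of cycles contain few even subgraphs are unbalanced -/
theorem of_evenCount {s : Fin n → Bool} :
    ((∀ Z : Finset (Fin n), D.IsCycleUnion s Z →
      D.evenCount s Z < 2 ^ ((num s true Z : ℤ) - num s false Z).natAbs) → D.Unbalanced s) ∧
    ((∀ Z : Finset (Fin n), D.IsCycleUnion s Z →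
      2 * D.evenCount s Z < 2 ^ ((num s true Z : ℤ) - num s false Z).natAbs) →
      D.StrictlyUnbalanced s) := by
  refine ⟨fun h Z hZ => ?_, fun h Z hZ => ?_⟩
  · have h1 := h Z hZ
    have h2 := D.two_pow_exn_le s Z
    have h3 : 2 ^ D.exn s Z < 2 ^ (2 * ((num s true Z : ℤ) - num s false Z).natAbs) := by
      rw [mul_comm, pow_mul]
      exact h2.trans_lt (Nat.pow_lt_pow_left h1 (by norm_num))
    have h4 := (Nat.pow_lt_pow_iff_right (by norm_num)).1 h3
    have h5 := D.exn_eq s Z
    have h6 : (((num s true Z : ℤ) - num s false Z).natAbs : ℤ) =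
      |(num s true Z : ℤ) - num s false Z| := Int.natCast_natAbs _
    omega
  · have h1 := h Z hZ
    have h2 := D.two_pow_exn_le s Z
    have h3 : 2 ^ (D.exn s Z + 2) < 2 ^ (2 * ((num s true Z : ℤ) - num s false Z).natAbs) := by
      rw [mul_comm 2 (Int.natAbs _), pow_mul]
      calc 2 ^ (D.exn s Z + 2) = 4 * 2 ^ D.exn s Z := by rw [pow_add]; ring
        _ ≤ 4 * D.evenCount s Z ^ 2 := Nat.mul_le_mul_left 4 h2
        _ = (2 * D.evenCount s Z) ^ 2 := by ring
        _ < _ := Nat.pow_lt_pow_left h1 (by norm_num)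
    have h4 := (Nat.pow_lt_pow_iff_right (by norm_num)).1 h3
    have h5 := D.exn_eq s Z
    have h6 : (((num s true Z : ℤ) - num s false Z).natAbs : ℤ) =
      |(num s true Z : ℤ) - num s false Z| := Int.natCast_natAbs _
    omega

/-- states whose unions of cycles consist of few series classes are unbalanced -/
theorem of_series {s : Fin n → Bool} {m : ℕ} {r : Fin n → Fin m} (hr : D.Series s r) :
    ((∀ Z : Finset (Fin n), D.IsCycleUnion s Z →
      ((Z.image r).card : ℤ) + 1 ≤ |(num s true Z : ℤ) - num s false Z|) → D.Unbalanced s) ∧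
    ((∀ Z : Finset (Fin n), D.IsCycleUnion s Z →
      ((Z.image r).card : ℤ) + 2 ≤ |(num s true Z : ℤ) - num s false Z|) →
      D.StrictlyUnbalanced s) := by
  have key : ∀ Z : Finset (Fin n), D.excess s Z ≤ 2 * ((Z.image r).card : ℤ) := by
    intro Z
    have h1 := excess_le_classes hr Z
    rw [← exn_eq]
    exact_mod_cast h1
  refine ⟨fun h Z hZ => ?_, fun h Z hZ => ?_⟩
  · have h1 := key Z
    have h4 := h Z hZ
    omega
  · have h1 := key Z
    have h4 := h Z hZ
    omega

end GaussDiagram

end Pool.Agent.Helper16.Knotoid
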