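import Pool.Agent.Helper16.Knotoid.Defs

set_option autoImplicit false

/-!
# Unbalanced states of knotoid diagrams
-/

namespace Pool.Agent.Helper16.Knotoid

namespace GaussDiagram

variable {n : ℕ} (D : GaussDiagram n)

/-- One of the two components of the state `s` at the crossing `c`: the state joins the edges at `c`
in two pairs, the edges before and after the over-passage lying in different pairs. -/
def end₁ (s : Fin n → Bool) (c : Fin n) : Quot (D.Join s) :=
  Quot.mk _ (D.overPass c).castSucc

/-- The other component of the state `s` at the crossing `c`. -/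
def end₂ (s : Fin n → Bool) (c : Fin n) : Quot (D.Join s) :=
  Quot.mk _ (D.overPass c).succ

open Classical in
/-- `C` is an even subgraph (a sum of edge-disjoint cycles) of the state graph of `s`, whose
vertices are the components of `s` and whose edges are the crossings `c`, joining `D.end₁ s c` to
`D.end₂ s c`. -/
def IsEven (s : Fin n → Bool) (C : Finset (Fin n)) : Prop :=
  ∀ q : Quot (D.Join s),
    Even ((C.filter fun c => D.end₁ s c = q).card + (C.filter fun c => D.end₂ s c = q).card)

/-- The state obtained from `s` by changing the smoothings at the crossings of `Z`. -/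
def change (s : Fin n → Bool) (Z : Finset (Fin n)) : Fin n → Bool :=
  fun c => if c ∈ Z then !(s c) else s c

/-- `Z` is a nonempty union of cycles of the state graph of `s`. -/
def IsCycleUnion (s : Fin n → Bool) (Z : Finset (Fin n)) : Prop :=
  Z.Nonempty ∧ ∀ c ∈ Z, ∃ C ⊆ Z, D.IsEven s C ∧ c ∈ C

/-- `|Z| + |s_Z| - |s|`, where `s_Z` is `s` changed on `Z`. -/
noncomputable def excess (s : Fin n → Bool) (Z : Finset (Fin n)) : ℤ :=
  (Z.card : ℤ) + D.comps (change s Z) - D.comps s

/-- The number of crossings of `Z` at which `s` has the smoothing `X`. -/
def num {n : ℕ} (s : Fin n → Bool) (X : Bool) (Z : Finset (Fin n)) : ℕ :=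
  (Z.filter fun c => s c = X).card

/-- The state `s` is unbalanced: the excess of every nonempty union `Z` of cycles of its state graph
is less than `2 |A(Z) - B(Z)|`, `A(Z)` and `B(Z)` being the numbers of `A`- and of `B`-smoothings
in `Z`. -/
def Unbalanced (s : Fin n → Bool) : Prop :=
  ∀ Z : Finset (Fin n), D.IsCycleUnion s Z →
    D.excess s Z < 2 * |(num s true Z : ℤ) - num s false Z|

end GaussDiagram

end Pool.Agent.Helper16.Knotoid
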