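import Pool.Agent.Helper16.KUnb.Graph
import Pool.Agent.Helper16.Knotoid.Main
import Pool.Agent.Helper16.Jones.Unb1

set_option autoImplicit false

/-!
# The expansion of the bracket of a knotoid over the unions of cycles of a state graph
-/

namespace Pool.Agent.Helper16.Knotoid

open LaurentPolynomial
open Pool.Agent.Helper16.Jones (resum T_sum coeff_dd_abs coeff_dd_choose coeff_dd_ne_zero
  coeff_dd_neg sw_bij)
open Pool.Agent.Helper16.Jones.Sys (term_Y)

namespace GaussDiagram

variable {n : ℕ} (D : GaussDiagram n)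

theorem comps_change_insert (s : Fin n → Bool) {Y : Finset (Fin n)} {c : Fin n} (hc : c ∉ Y) :
    D.comps (change s Y) ≤ D.comps (change s (insert c Y)) + 1 ∧
      D.comps (change s (insert c Y)) ≤ D.comps (change s Y) + 1 := by
  rw [change_insert s hc]
  exact D.comps_swc_ge _ c

theorem ex_add (s : Fin n → Bool) (Y : Finset (Fin n)) :
    D.comps s ≤ D.comps (change s Y) + Y.card := by
  induction Y using Finset.induction_on with
  | empty => rw [change_empty]; simp
  | insert c Y hc ih =>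
    rw [Finset.card_insert_of_notMem hc]
    have := (D.comps_change_insert s hc).1
    omega

/-- the excess as a natural number -/
noncomputable def exn (s : Fin n → Bool) (Y : Finset (Fin n)) : ℕ :=
  D.comps (change s Y) + Y.card - D.comps s

theorem exn_eq (s : Fin n → Bool) (Y : Finset (Fin n)) : (D.exn s Y : ℤ) = D.excess s Y := by
  have := D.ex_add s Y
  unfold exn excess
  omega

theorem exn_empty (s : Fin n → Bool) : D.exn s ∅ = 0 := by
  unfold exn
  rw [change_empty]
  simp

theorem exn_insert (s : Fin n → Bool) {Y : Finset (Fin n)} {c : Fin n} (hc : c ∉ Y) :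
    D.exn s Y ≤ D.exn s (insert c Y) ∧ D.exn s (insert c Y) ≤ D.exn s Y + 2 := by
  have h1 := D.comps_change_insert s hc
  have h2 := D.ex_add s Y
  unfold exn
  rw [Finset.card_insert_of_notMem hc]
  omega

theorem exn_insert_sep {s : Fin n → Bool} {Y : Finset (Fin n)} {c : Fin n} (hc : c ∉ Y)
    (h : D.Sep s Y c) : D.exn s (insert c Y) = D.exn s Y := by
  have h1 := Sep.comps D h hc
  have h2 := D.ex_add s Y
  unfold exn
  rw [Finset.card_insert_of_notMem hc]
  omega

theorem exn_mono (s : Fin n → Bool) {Y Z : Finset (Fin n)} (h : Y ⊆ Z) :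
    D.exn s Y ≤ D.exn s Z := by
  have key : ∀ X : Finset (Fin n), D.exn s Y ≤ D.exn s (X ∪ Y) := by
    intro X
    induction X using Finset.induction_on with
    | empty => simp
    | insert a X _ ih =>
      rw [Finset.insert_union]
      by_cases ha : a ∈ X ∪ Y
      · rw [Finset.insert_eq_of_mem ha]; exact ih
      · exact ih.trans (D.exn_insert s ha).1
  have := key Z
  rwa [Finset.union_eq_left.2 h] at this

/-- the flow-like polynomial of `Z` -/
noncomputable def hh (s : Fin n → Bool) (Z : Finset (Fin n)) : LaurentPolynomial ℤ :=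
  ∑ Y ∈ Z.powerset, (-1) ^ Y.card * dd ^ D.exn s Y

theorem hh_empty (s : Fin n → Bool) : D.hh s ∅ = 1 := by
  unfold hh
  rw [Finset.powerset_empty, Finset.sum_singleton, exn_empty]
  simp

theorem hh_sep {s : Fin n → Bool} {Z : Finset (Fin n)} {c : Fin n} (hc : c ∈ Z)
    (hb : D.Sep s Z c) : D.hh s Z = 0 := by
  have hZ : Z = insert c (Z.erase c) := (Finset.insert_erase hc).symm
  unfold hh
  conv_lhs => rw [hZ]
  rw [Finset.sum_powerset_insert (Finset.notMem_erase c Z), ← Finset.sum_add_distrib]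
  refine Finset.sum_eq_zero fun Y hY => ?_
  have h1 : Y ⊆ Z.erase c := Finset.mem_powerset.1 hY
  have h2 : c ∉ Y := fun h => Finset.notMem_erase c Z (h1 h)
  have h3 : D.Sep s Y c := Sep.mono D hb (h1.trans (Finset.erase_subset c Z))
  rw [Finset.card_insert_of_notMem h2, D.exn_insert_sep h2 h3, pow_succ]
  ring

theorem hh_coeff {s : Fin n → Bool} {Z : Finset (Fin n)} {j : ℤ}
    (hj : 2 * (D.exn s Z : ℤ) < |j|) : (D.hh s Z).coeff j = 0 := by
  unfold hh
  rw [coeff_sum_apply]
  refine Finset.sum_eq_zero fun Y hY => ?_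
  have h1 := D.exn_mono s (Finset.mem_powerset.1 hY)
  have h2 : (dd ^ D.exn s Y).coeff j = 0 := by
    apply coeff_dd_abs
    omega
  rcases neg_one_pow_eq_or (LaurentPolynomial ℤ) Y.card with h | h
  · rw [h, one_mul, h2]
  · rw [h, neg_mul, one_mul]
    show -((dd ^ D.exn s Y).coeff j) = 0
    rw [h2, neg_zero]

/-- the resummed bracket -/
noncomputable def KK (s : Fin n → Bool) : LaurentPolynomial ℤ :=
  ∑ Z ∈ (Finset.univ : Finset (Fin n)).powerset, (∏ c ∈ Z, Jones.wt s c) * D.hh s Z

theorem comps_le (s : Fin n → Bool) : D.comps s ≤ n + 1 := by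
  have := D.comps_add_rank s
  omega

theorem dd_mul_bracket (s : Fin n → Bool) {β : ℕ} (hβ : β + D.comps s = n + 1) :
    dd ^ β * D.bracket = (-1) ^ n * T (3 * Jones.sg s Finset.univ) * D.KK s := by
  unfold bracket KK hh
  rw [resum, ← (sw_bij s).sum_comp, Finset.mul_sum, Finset.mul_sum, ← Finset.powerset_univ]
  refine Finset.sum_congr rfl fun Y _ => ?_
  have h1 := term_Y s Y
  rw [Fintype.card_fin] at h1
  have hsw : Jones.sw s Y = change s Y := rfl
  have h2 : β + (D.comps (change s Y) - 1) = (n - Y.card) + D.exn s Y := by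
    have h3 := D.comps_pos (change s Y)
    have h4 := D.ex_add s Y
    have h5 := Finset.card_le_univ Y
    rw [Fintype.card_fin] at h5
    unfold exn
    omega
  have h3 : (T (stateSign (Jones.sw s Y)) : LaurentPolynomial ℤ) =
      T (∑ c, if Jones.sw s Y c then 1 else -1) := rfl
  calc dd ^ β * (T (stateSign (Jones.sw s Y)) *
        (-T 2 - T (-2)) ^ (D.comps (Jones.sw s Y) - 1)) =
        (T (∑ c, if Jones.sw s Y c then 1 else -1) * dd ^ (n - Y.card)) *
          dd ^ D.exn s Y := by
        rw [h3, hsw, show (-T 2 - T (-2) : LaurentPolynomial ℤ) = dd from rfl, mul_assoc,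
          ← pow_add, ← h2, pow_add]
        ring
    _ = _ := by
        rw [h1]
        ring

theorem KK_term_coeff {s : Fin n → Bool} {Z : Finset (Fin n)} {j : ℤ}
    (hj : D.IsCycleUnion s Z → 2 * (D.exn s Z : ℤ) < |j + 4 * Jones.sg s Z|) (hne : Z.Nonempty) :
    ((∏ c ∈ Z, Jones.wt s c) * D.hh s Z).coeff j = 0 := by
  by_cases hb : ∀ c ∈ Z, ∃ C ⊆ Z, D.IsEven s C ∧ c ∈ C
  · rw [Jones.prod_wt, coeff_T_mul]
    apply D.hh_coeff
    have := hj ⟨hne, hb⟩
    rwa [show j - -4 * Jones.sg s Z = j + 4 * Jones.sg s Z by ring]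
  · push Not at hb
    obtain ⟨c, hc, hb⟩ := hb
    rw [D.hh_sep hc (D.exists_sep hc hb), mul_zero]
    rfl

theorem sg_eq (s : Fin n → Bool) (Z : Finset (Fin n)) :
    Jones.sg s Z = (num s true Z : ℤ) - num s false Z := by
  unfold Jones.sg num
  have h1 : Z ∩ Jones.Pos s = Z.filter fun c => s c = true := by
    ext c; simp [Jones.Pos]
  have h2 : Z ∩ Jones.Neg s = Z.filter fun c => s c = false := by
    ext c; simp [Jones.Neg]
  rw [h1, h2]

theorem KK_coeff_zero {s : Fin n → Bool} {j : ℤ} (h : ∀ Z, D.IsCycleUnion s Z →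
    2 * D.excess s Z < |j + 4 * ((num s true Z : ℤ) - num s false Z)|) :
    (D.KK s).coeff j = if j = 0 then 1 else 0 := by
  unfold KK
  rw [coeff_sum_apply, Finset.sum_eq_single ∅]
  · rw [hh_empty, Finset.prod_empty, mul_one, ← pow_zero dd, coeff_dd_pow_zero]
  · intro Z _ hZ
    apply D.KK_term_coeff _ (Finset.nonempty_iff_ne_empty.2 hZ)
    intro hb
    rw [exn_eq, sg_eq]
    exact h Z hb
  · simp

theorem KK_mono (s : Fin n → Bool) {β : ℕ} (hβ : β + D.comps s = n + 1) {e ε : ℤ}
    (hmono : ∀ j, D.bracket.coeff j = if j = e then ε else 0) (j : ℤ) :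
    (D.KK s).coeff j = (-1) ^ n * ε * (dd ^ β).coeff (j + 3 * Jones.sg s Finset.univ - e) := by
  have h1 := D.dd_mul_bracket s hβ
  have h2 : D.bracket = C ε * T e := by
    ext j
    rw [hmono, ← single_eq_C_mul_T]
    show _ = (Finsupp.single e ε) j
    rw [Finsupp.single_apply]
    simp only [eq_comm]
  have h3 : D.KK s = (-1) ^ n * T (-(3 * Jones.sg s Finset.univ)) * (dd ^ β * D.bracket) := by
    rw [h1]
    have h4 : ((-1 : LaurentPolynomial ℤ) ^ n) * (-1) ^ n = 1 := by
      rw [← mul_pow]; simp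
    have h5 : (T (-(3 * Jones.sg s Finset.univ)) : LaurentPolynomial ℤ) * T (3 * Jones.sg s Finset.univ) = 1 := by
      rw [← T_add, neg_add_cancel, T_zero]
    linear_combination (-(1:LaurentPolynomial ℤ)) * (D.KK s) * T (-(3 * Jones.sg s Finset.univ)) *
      T (3 * Jones.sg s Finset.univ) * h4 - (D.KK s) * h5
  rw [h3, h2]
  have h6 : ((-1 : LaurentPolynomial ℤ) ^ n) = C ((-1) ^ n) := by
    simp
  have h7 : (-1 : LaurentPolynomial ℤ) ^ n * T (-(3 * Jones.sg s Finset.univ)) *
      (dd ^ β * (C ε * T e)) =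
      C ((-1) ^ n * ε) * (T (e - 3 * Jones.sg s Finset.univ) * dd ^ β) := by
    rw [h6, map_mul, show e - 3 * Jones.sg s Finset.univ = -(3 * Jones.sg s Finset.univ) + e by ring, T_add]
    ring
  rw [h7]
  have h8 : ∀ (a : ℤ) (p : LaurentPolynomial ℤ), (C a * p).coeff j = a * p.coeff j := by
    intro a p
    rw [← smul_eq_C_mul]
    rfl
  rw [h8, coeff_T_mul]
  congr 2
  ring

/-- if the bracket is a monomial and the state is unbalanced -/
theorem KK_cases {s : Fin n → Bool} (hU : D.Unbalanced s) {β : ℕ} (hβ : β + D.comps s = n + 1)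
    {e ε : ℤ} (hmono : ∀ j, D.bracket.coeff j = if j = e then ε else 0) :
    (3 * Jones.sg s Finset.univ - e = 2 * β ∧ (D.KK s).coeff (-4) = β) ∨
    (3 * Jones.sg s Finset.univ - e = -(2 * β) ∧ (D.KK s).coeff 4 = β) := by
  have h1 := D.KK_mono s hβ hmono
  have h0 := h1 0
  rw [D.KK_coeff_zero (by
    intro Z hZ
    have := hU Z hZ
    rw [zero_add, abs_mul]
    norm_num
    omega), if_pos rfl] at h0
  have hne : (dd ^ β).coeff (0 + 3 * Jones.sg s Finset.univ - e) ≠ 0 := by
    intro h
    rw [h, mul_zero] at h0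
    exact one_ne_zero h0
  obtain ⟨i, hi, hi'⟩ := coeff_dd_ne_zero β _ hne
  rw [hi', coeff_dd_choose] at h0
  have hunit : ((β.choose i : ℕ) : ℤ) = 1 := by
    have h2 : ((β.choose i : ℕ) : ℤ) ∣ 1 := ⟨(-1) ^ n * ε * (-1) ^ β, by
      linear_combination h0⟩
    exact Int.eq_one_of_dvd_one (by positivity) h2
  have hE : (-1) ^ n * ε * (-1) ^ β = 1 := by
    rw [hunit] at h0
    linear_combination -h0
  have hci : i = 0 ∨ i = β := by
    have h3 : β.choose i = 1 := by exact_mod_cast hunit
    rcases Nat.eq_zero_or_pos i with h | h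
    · exact Or.inl h
    · right
      by_contra hne2
      have h4 : i < β := by omega
      have h5 := Nat.choose_le_choose i (show i + 1 ≤ β by omega)
      rw [Nat.choose_succ_self_right, h3] at h5
      omega
  rcases hci with rfl | rfl
  · left
    refine ⟨by push_cast at hi'; omega, ?_⟩
    rw [h1, show (-4 : ℤ) + 3 * Jones.sg s Finset.univ - e = 2 * (β : ℤ) - 4 * (1 : ℕ) by
      push_cast at hi' ⊢; omega, coeff_dd_choose, Nat.choose_one_right]
    linear_combination (β : ℤ) * hE
  · right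
    refine ⟨by push_cast at hi'; omega, ?_⟩
    rw [h1]
    rcases Nat.eq_zero_or_pos i with h | h
    · subst h
      rw [coeff_dd_abs 0 _ (by
        push_cast at hi' ⊢
        rw [show (4 : ℤ) + 3 * Jones.sg s Finset.univ - e = 4 by omega]
        norm_num), mul_zero]
      simp
    · obtain ⟨k, rfl⟩ : ∃ k, i = k + 1 := ⟨i - 1, by omega⟩
      rw [show (4 : ℤ) + 3 * Jones.sg s Finset.univ - e = 2 * ((k + 1 : ℕ) : ℤ) - 4 * (k : ℕ) by
        push_cast at hi' ⊢; omega, coeff_dd_choose, Nat.choose_succ_self_right]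
      linear_combination ((k + 1 : ℕ) : ℤ) * hE

end GaussDiagram

end Pool.Agent.Helper16.Knotoid
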